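import Pool.Agent.Work.MP_7cb3ca_co.Sm.D.Wa
import Pool.Agent.Work.MP_7cb3ca_co.Sm.D.Wb
import Pool.Agent.Work.MP_7cb3ca_co.Sm.D.Wc

/-! Short cycles: all lengths up to 21. -/

namespace Pool.Agent.Work.MP_7cb3ca_co.Sm

theorem short_all (n : ℕ) (h3 : 3 ≤ n) (h21 : n ≤ 21) (h : n ∉ [5, 7, 9, 10, 14, 17]) :
    Short n := by
  have : n = 3 ∨ n = 4 ∨ n = 6 ∨ n = 8 ∨ n = 11 ∨ n = 12 ∨ n = 13 ∨ n = 15 ∨ n = 16 ∨ n = 18 ∨
      n = 19 ∨ n = 20 ∨ n = 21 := by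
    simp only [List.mem_cons, List.not_mem_nil, or_false, not_or] at h
    omega
  rcases this with rfl | rfl | rfl | rfl | rfl | rfl | rfl | rfl | rfl | rfl | rfl | rfl | rfl
  exacts [D.short3, D.short4, D.short6, D.short8, D.short11, D.short12, D.short13, D.short15,
    D.short16, D.short18, D.short19, D.short20, D.short21]

end Pool.Agent.Work.MP_7cb3ca_co.Sm
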