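import Pool.Agent.Work.MP_7cb3ca_co.Sm.Defs
import Mathlib.Tactic
import Mathlib.Data.Nat.Bitwise

/-! Short cycles: soundness of the checker. -/

namespace Pool.Agent.Work.MP_7cb3ca_co.Sm

theorem strict_eq {α : Type} (e : ℕ) (f : ℕ → α) : strict e f = f e := rfl

theorem cnd_eq {α : Type} (b : Bool) (x y : α) : cnd b x y = if b = true then x else y := by
  cases b <;> rfl

theorem bnd_eq (a b : Bool) : bnd a b = true ↔ a = true ∧ b = true := by
  cases a <;> simp [bnd]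

/-- Membership in a list of entries. -/
def EL.mem (sh a w : ℕ) : EL → Prop
  | .nil => False
  | .cons sh' a' w' t => (sh = sh' ∧ a = a' ∧ w = w') ∨ t.mem sh a w

/-- All states of a tree have a property. -/
def BT.all (P : ℕ → Prop) : BT → Prop
  | .leaf v _ => P v
  | .node l r => l.all P ∧ r.all P

theorem BT.all_get {P : ℕ → Prop} {T : BT} (h : T.all P) : ∀ i, P (T.get i) := by
  induction T with
  | leaf v e => exact fun _ => h
  | node l r hl hr =>
    intro i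
    change P (cnd (Nat.beq (Nat.land i 1) 0) (l.get (Nat.shiftRight i 1)) (r.get (Nat.shiftRight i 1)))
    rw [cnd_eq]
    split_ifs
    exacts [hl h.1 _, hr h.2 _]

/-- The named places below `i` have equal names exactly when they have equal letters. -/
def Sat (i V : ℕ) (u : ℕ → ℕ) : Prop :=
  ∀ j < i, ∀ j' < i, dg V (4 * j) ≠ 0 → dg V (4 * j') ≠ 0 →
    (dg V (4 * j) = dg V (4 * j') ↔ u j = u j')

/-- The window number `b` has a pair of different letters below `i`. -/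
def Kill (n i : ℕ) (u : ℕ → ℕ) (b : ℕ) : Prop :=
  ∀ p s, 1 ≤ p → s < n → b = n * (p - 1) + s →
    ∃ t < p, (s + t) % n < i ∧ (s + t + p) % n < i ∧ u ((s + t) % n) ≠ u ((s + t + p) % n)

/-- All windows of a mask are dead. -/
def Dead (n i M : ℕ) (u : ℕ → ℕ) : Prop := ∀ b, M.testBit b = true → Kill n i u b

/-- The state can be completed. -/
def Win (n i cp V : ℕ) : Prop :=
  ∀ (L : ℕ → Finset ℕ) (u : ℕ → ℕ), (∀ j < n, 3 ≤ (L j).card) → u 0 ∉ L (n - 1) → Sat i V u →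
    Dead n i (V >>> 128 ||| cp) u →
    ∃ v : ℕ → ℕ, (∀ j < i, v j = u j) ∧ (∀ j, i ≤ j → j < n → v j ∈ L j) ∧
      Dead n n (2 ^ (n * (n / 2)) - 1) v

theorem Kill.update {n i : ℕ} {u : ℕ → ℕ} {b : ℕ} (h : Kill n i u b) (c : ℕ) :
    Kill n (i + 1) (Function.update u i c) b := by
  intro p s hp hs hb
  obtain ⟨t, h1, h2, h3, h4⟩ := h p s hp hs hb
  refine ⟨t, h1, by omega, by omega, ?_⟩
  rwa [Function.update_of_ne (by omega), Function.update_of_ne (by omega)]

theorem run_bit {n a p b : ℕ} (q : ℕ) (h : (run n a p q).testBit b = true) :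
    ∃ t < q, b = n * (p - 1) + (a + n - t) % n := by
  induction q with
  | zero => simp [run] at h
  | succ q ih =>
    have e : run n a p (q + 1) = run n a p q ||| 1 <<< (n * (p - 1) + (a + n - q) % n) := rfl
    rw [e, Nat.testBit_or, Bool.or_eq_true] at h
    rcases h with h | h
    · obtain ⟨t, h1, h2⟩ := ih h
      exact ⟨t, by omega, h2⟩
    · rw [Nat.one_shiftLeft, Nat.testBit_two_pow] at h
      exact ⟨q, by omega, (of_decide_eq_true h).symm⟩

theorem run_pair {n a q b p s : ℕ} (ha : a < n) (hq : q ≤ n) (hq1 : 1 ≤ q) (hp : 1 ≤ p) (hs : s < n)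
    (hb : b = n * (p - 1) + s) (h : (run n a q q).testBit b = true) :
    p = q ∧ ∃ t < p, (s + t) % n = a := by
  obtain ⟨t, h1, h2⟩ := run_bit q h
  have h3 : (a + n - t) % n < n := Nat.mod_lt _ (by omega)
  have h4 : n * (p - 1) + s = n * (q - 1) + (a + n - t) % n := hb ▸ h2
  have h5 : p - 1 = q - 1 := by
    have := congrArg (· / n) h4
    simp only [Nat.mul_add_div (show n > 0 by omega), Nat.div_eq_of_lt hs, Nat.div_eq_of_lt h3] at this
    omega
  have h6 : s = (a + n - t) % n := by rw [h5] at h4; omega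
  refine ⟨by omega, t, by omega, ?_⟩
  rw [h6, Nat.mod_add_mod, show a + n - t + t = a + n by omega, Nat.add_mod_right, Nat.mod_eq_of_lt ha]

theorem km_kill {n i j b : ℕ} {u : ℕ → ℕ} (hj : j < i) (hi : i < n) (hu : u j ≠ u i)
    (h : (km n i j).testBit b = true) : Kill n (i + 1) u b := by
  intro p s hp hs hb
  have e : km n i j = cnd (Nat.ble (2 * (i - j)) n) (run n j (i - j) (i - j)) 0 |||
      cnd (Nat.ble (2 * (n - (i - j))) n) (run n i (n - (i - j)) (n - (i - j))) 0 := rfl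
  rw [e, Nat.testBit_or, Bool.or_eq_true, cnd_eq, cnd_eq] at h
  rcases h with h | h <;> split_ifs at h with h1
  · obtain ⟨h2, t, h3, h4⟩ := run_pair (by omega) (by omega) (by omega) hp hs hb h
    have h5 : (s + t + p) % n = i := by
      rw [← Nat.mod_add_mod, h4, h2, show j + (i - j) = i by omega, Nat.mod_eq_of_lt hi]
    exact ⟨t, h3, by omega, by omega, by rw [h4, h5]; exact hu⟩
  · simp at h
  · obtain ⟨h2, t, h3, h4⟩ := run_pair (by omega) (by omega) (by omega) hp hs hb h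
    have h5 : (s + t + p) % n = j := by
      rw [← Nat.mod_add_mod, h4, h2, show i + (n - (i - j)) = j + n by omega, Nat.add_mod_right,
        Nat.mod_eq_of_lt (by omega)]
    exact ⟨t, h3, by omega, by omega, by rw [h4, h5]; exact hu.symm⟩
  · simp at h

theorem tab_spec {n i : ℕ} (T : EL) : ∀ q, tabOk n i T q = true →
    (∀ sh m w, T.mem sh m w → ∃ j < q, sh = 4 * j ∧ w = km n i j) ∧
    ∀ j < q, T.mem (4 * j) (15 <<< (4 * j)) (km n i j) := by
  induction T with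
  | nil =>
    intro q h
    have : q = 0 := Nat.eq_of_beq_eq_true h
    exact ⟨fun _ _ _ h => h.elim, fun j hj => by omega⟩
  | cons sh a k t ih =>
    intro q h
    change bnd (Nat.ble 1 q) (bnd (Nat.beq sh (4 * (q - 1))) (bnd (Nat.beq a (15 <<< sh))
      (bnd (Nat.beq k (km n i (q - 1))) (tabOk n i t (q - 1))))) = true at h
    simp only [bnd_eq, Nat.ble_eq, Nat.beq_eq] at h
    obtain ⟨h1, rfl, rfl, rfl, h5⟩ := h
    obtain ⟨h6, h7⟩ := ih _ h5
    refine ⟨fun sh m w hm => ?_, fun j hj => ?_⟩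
    · rcases hm with ⟨rfl, -, rfl⟩ | hm
      · exact ⟨q - 1, by omega, rfl, rfl⟩
      · obtain ⟨j, h8, h9⟩ := h6 _ _ _ hm
        exact ⟨j, by omega, h9⟩
    · by_cases h8 : j = q - 1
      · subst h8; exact Or.inl ⟨rfl, rfl, rfl⟩
      · exact Or.inr (h7 j (by omega))

theorem filt_spec {V k : ℕ} {f : EL → ℕ → Bool} (T : EL) : ∀ l nl, filt V k T l nl f = true →
    ∃ l' nl', f l' nl' = true ∧
      (∀ sh a w, l'.mem sh a w → l.mem sh a w ∨ ∃ m, T.mem sh m w ∧ a = dg V sh ∧ a ≠ 0) ∧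
      (∀ sh a w, l.mem sh a w → l'.mem sh a w) ∧
      (∀ b, nl.testBit b = true → nl'.testBit b = true) ∧
      ∀ sh m w, T.mem sh m w → (dg V sh ≠ 0 → l'.mem sh (dg V sh) w ∧ dg V sh ≤ k) ∧
        (dg V sh = 0 → ∀ b, m.testBit b = true → nl'.testBit b = true) := by
  induction T with
  | nil => exact fun l nl h => ⟨l, nl, h, fun _ _ _ h => Or.inl h, fun _ _ _ h => h, fun _ h => h,
      fun _ _ _ h => h.elim⟩
  | cons sh m w t ih =>
    intro l nl h
    change cnd (Nat.beq (dg V sh) 0) (filt V k t l (nl ||| m) f)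
      (bnd (Nat.ble (dg V sh) k) (filt V k t (EL.cons sh (dg V sh) w l) nl f)) = true at h
    simp only [cnd_eq, Nat.beq_eq] at h
    split_ifs at h with h0
    · obtain ⟨l', nl', h1, h2, h3, h4, h5⟩ := ih _ _ h
      refine ⟨l', nl', h1, fun s a x hm => (h2 s a x hm).imp id fun ⟨m', h6, h7⟩ => ⟨m', Or.inr h6, h7⟩, h3,
        fun b hb => h4 b (by simp [hb]), fun s m' x hm => ?_⟩
      rcases hm with ⟨rfl, rfl, rfl⟩ | hm
      · exact ⟨fun h6 => absurd h0 h6, fun _ b hb => h4 b (by simp [hb])⟩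
      · exact h5 _ _ _ hm
    · rw [bnd_eq, Nat.ble_eq] at h
      obtain ⟨l', nl', h1, h2, h3, h4, h5⟩ := ih _ _ h.2
      refine ⟨l', nl', h1, fun s a x hm => ?_, fun s a x hm => h3 s a x (Or.inr hm), h4, fun s m' x hm => ?_⟩
      · rcases h2 s a x hm with (⟨rfl, rfl, rfl⟩ | h6) | ⟨m', h6, h7⟩
        exacts [Or.inr ⟨m, Or.inl ⟨rfl, rfl, rfl⟩, rfl, h0⟩, Or.inl h6, Or.inr ⟨m', Or.inr h6, h7⟩]
      · rcases hm with ⟨rfl, rfl, rfl⟩ | hm
        · exact ⟨fun _ => ⟨h3 _ _ _ (Or.inl ⟨rfl, rfl, rfl⟩), h.1⟩, fun h6 => absurd h6 h0⟩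
        · exact h5 _ _ _ hm

theorem bld_spec {V : ℕ} {f : ℕ → Bool} (l : EL) : ∀ τ, bld V l τ f = true → ∃ τ', f τ' = true := by
  induction l with
  | nil => exact fun τ h => ⟨τ, h⟩
  | cons sh a w t ih => exact fun τ h => ih _ h

theorem ver_spec {V x τ : ℕ} {f : ℕ → Bool} (l : EL) : ∀ K, ver V x τ l K f = true →
    ∃ K', f K' = true ∧
      (∀ sh a w, l.mem sh a w → dg V sh ≠ 0 → dg τ (4 * dg V sh) = a ∧ dg τ (64 + 4 * a) = dg V sh) ∧
      ∀ b, K'.testBit b = true → K.testBit b = true ∨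
        ∃ sh a w, l.mem sh a w ∧ a ≠ x ∧ w.testBit b = true := by
  induction l with
  | nil => exact fun K h => ⟨K, h, fun _ _ _ h => h.elim, fun _ h => Or.inl h⟩
  | cons sh a w t ih =>
    intro K h
    change bnd (cnd (Nat.beq (dg V sh) 0) true (bnd (Nat.beq (dg τ (4 * dg V sh)) a)
      (Nat.beq (dg τ (64 + 4 * a)) (dg V sh))))
      (cnd (Nat.beq a x) (ver V x τ t K f) (ver V x τ t (K ||| w) f)) = true at h
    simp only [bnd_eq, cnd_eq, Nat.beq_eq] at h
    obtain ⟨h1, h2⟩ := h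
    have h3 : dg V sh ≠ 0 → dg τ (4 * dg V sh) = a ∧ dg τ (64 + 4 * a) = dg V sh := fun h0 => by
      rwa [if_neg h0, bnd_eq, Nat.beq_eq, Nat.beq_eq] at h1
    split_ifs at h2 with h4
    · obtain ⟨K', h5, h6, h7⟩ := ih _ h2
      refine ⟨K', h5, fun s c y hm => ?_, fun b hb => (h7 b hb).imp id
        fun ⟨s, c, y, k1, k2⟩ => ⟨s, c, y, Or.inr k1, k2⟩⟩
      rcases hm with ⟨rfl, rfl, rfl⟩ | hm
      exacts [h3, h6 _ _ _ hm]
    · obtain ⟨K', h5, h6, h7⟩ := ih _ h2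
      refine ⟨K', h5, fun s c y hm => ?_, fun b hb => ?_⟩
      · rcases hm with ⟨rfl, rfl, rfl⟩ | hm
        exacts [h3, h6 _ _ _ hm]
      · rcases h7 b hb with h8 | ⟨s, c, y, k1, k2⟩
        · rw [Nat.testBit_or, Bool.or_eq_true] at h8
          exact h8.imp id fun h9 => ⟨sh, a, w, Or.inl ⟨rfl, rfl, rfl⟩, h4, h9⟩
        · exact Or.inr ⟨s, c, y, Or.inr k1, k2⟩

theorem dg_zero {V nl sh : ℕ} (h : V &&& nl = 0)
    (h2 : ∀ b, (15 <<< sh).testBit b = true → nl.testBit b = true) : dg V sh = 0 := by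
  apply Nat.eq_of_testBit_eq
  intro b
  change ((V >>> sh) &&& 15).testBit b = _
  rw [Nat.testBit_and, Nat.testBit_shiftRight, Nat.zero_testBit]
  by_cases h3 : (15 : ℕ).testBit b = true
  · have h4 := h2 (sh + b) (by simp [Nat.testBit_shiftLeft, h3])
    have h5 := congrArg (fun z => z.testBit (sh + b)) h
    simp only [Nat.testBit_and, h4, Bool.and_true, Nat.zero_testBit] at h5
    simp [h5]
  · simp [h3]

theorem edge_spec {n i V D cp nl x V' c : ℕ} {l : EL} {u : ℕ → ℕ} (hi : i < n) (hx : x ≠ 0)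
    (hS : Sat i V u) (hD : Dead n i D u)
    (h1 : ∀ sh a w, l.mem sh a w → ∃ j < i, sh = 4 * j ∧ a = dg V sh ∧ a ≠ 0 ∧ w = km n i j)
    (h2 : ∀ j < i, dg V (4 * j) ≠ 0 → ∃ w, l.mem (4 * j) (dg V (4 * j)) w)
    (h3 : ∀ j < i, dg V (4 * j) = 0 → ∀ b, (15 <<< (4 * j)).testBit b = true → nl.testBit b = true)
    (hc : ∀ j < i, dg V (4 * j) ≠ 0 → (dg V (4 * j) = x ↔ u j = c))
    (h : edge D cp nl (4 * i) l x V' = true) :
    Sat (i + 1) V' (Function.update u i c) ∧ Dead n (i + 1) (V' >>> 128 ||| cp) (Function.update u i c) := by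
  rw [edge, bnd_eq, Nat.beq_eq] at h
  obtain ⟨h4, h5⟩ := h
  obtain ⟨τ, h5⟩ := bld_spec _ _ h5
  obtain ⟨K, h6, h7, h8⟩ := ver_spec _ _ h5
  have h9 : (V' >>> 128 ||| cp) &&& K = V' >>> 128 ||| cp := Nat.eq_of_beq_eq_true h6
  constructor
  · have key : ∀ j < i + 1, dg V' (4 * j) ≠ 0 → ∃ a, dg τ (4 * dg V' (4 * j)) = a ∧
        dg τ (64 + 4 * a) = dg V' (4 * j) ∧
        ((j = i ∧ a = x) ∨ (j < i ∧ a = dg V (4 * j) ∧ a ≠ 0)) := by
      intro j hj h0
      by_cases e : j = i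
      · subst e
        obtain ⟨k1, k2⟩ := h7 _ x 0 (Or.inl ⟨rfl, rfl, rfl⟩) h0
        exact ⟨x, k1, k2, Or.inl ⟨rfl, rfl⟩⟩
      · have k0 : dg V (4 * j) ≠ 0 := fun z => h0 (dg_zero h4 (h3 j (by omega) z))
        obtain ⟨w, k3⟩ := h2 j (by omega) k0
        obtain ⟨k1, k2⟩ := h7 _ _ w (Or.inr k3) h0
        exact ⟨_, k1, k2, Or.inr ⟨by omega, rfl, k0⟩⟩
    intro j hj j' hj' z z'
    obtain ⟨a, k1, k2, k3⟩ := key j hj z
    obtain ⟨a', k4, k5, k6⟩ := key j' hj' z'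
    have e : dg V' (4 * j) = dg V' (4 * j') ↔ a = a' :=
      ⟨fun e => by rw [← k1, ← k4, e], fun e => by rw [← k2, ← k5, e]⟩
    rw [e]
    rcases k3 with ⟨rfl, rfl⟩ | ⟨k7, rfl, k8⟩ <;> rcases k6 with ⟨rfl, rfl⟩ | ⟨k9, rfl, k10⟩
    · simp
    · rw [Function.update_self, Function.update_of_ne (by omega), eq_comm, hc _ k9 k10, eq_comm]
    · rw [Function.update_self, Function.update_of_ne (by omega), hc _ k7 k8]
    · rw [Function.update_of_ne (by omega), Function.update_of_ne (by omega)]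
      exact hS _ k7 _ k9 k8 k10
  · intro b hb
    rw [← h9, Nat.testBit_and, Bool.and_eq_true] at hb
    rcases h8 b hb.2 with k | ⟨sh, a, w, ⟨-, rfl, -⟩ | k1, k2, k3⟩
    · exact (hD b k).update c
    · exact absurd rfl k2
    · obtain ⟨j, k4, rfl, rfl, k5, rfl⟩ := h1 _ _ _ k1
      refine km_kill k4 hi ?_ k3
      rw [Function.update_self, Function.update_of_ne (by omega)]
      exact fun e => k2 ((hc j k4 k5).2 e)

theorem opts_spec {F : ℕ → ℕ → Bool} {G : ℕ → ℕ} {E ex : ℕ} (k : ℕ) : ∀ bud, opts F G E ex k bud = true →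
    ∃ S : Finset ℕ, S.card ≤ bud ∧ ∀ x, 1 ≤ x → x ≤ k → x = ex ∨ x ∈ S ∨ ∃ y, F x (G y) = true := by
  induction k with
  | zero => exact fun bud _ => ⟨∅, by simp, fun x h1 h2 => by omega⟩
  | succ k ih =>
    intro bud h
    change cnd (Nat.beq (pt E (k + 1 + 1)) 0)
      (cnd (Nat.beq (k + 1) ex) (opts F G E ex k bud) (bnd (Nat.ble 1 bud) (opts F G E ex k (bud - 1))))
      (bnd (F (k + 1) (G (pt E (k + 1 + 1) - 1))) (opts F G E ex k bud)) = true at h
    simp only [cnd_eq, Nat.beq_eq] at h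
    split_ifs at h with h1 h2
    · obtain ⟨S, h3, h4⟩ := ih _ h
      exact ⟨S, h3, fun x k1 k2 => if e : x = k + 1 then Or.inl (e.trans h2) else h4 x k1 (by omega)⟩
    · rw [bnd_eq, Nat.ble_eq] at h
      obtain ⟨S, h3, h4⟩ := ih _ h.2
      refine ⟨insert (k + 1) S, (Finset.card_insert_le _ _).trans (by omega), fun x k1 k2 => ?_⟩
      by_cases e : x = k + 1
      · exact Or.inr (Or.inl (by simp [e]))
      · exact (h4 x k1 (by omega)).imp id (Or.imp (fun z => by simp [z]) id)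
    · rw [bnd_eq] at h
      obtain ⟨S, h3, h4⟩ := ih _ h.2
      exact ⟨S, h3, fun x k1 k2 => if e : x = k + 1 then Or.inr (Or.inr ⟨_, e ▸ h.1⟩)
        else h4 x k1 (by omega)⟩

theorem node_spec {n i cp cp' V E : ℕ} {T : EL} {G : ℕ → ℕ} (h1 : 1 ≤ i) (hi : i < n)
    (hT : tabOk n i T i = true) (hG : ∀ y, Win n (i + 1) cp' (G y))
    (h : nodeOk T (4 * i) cp cp' (Nat.beq (i + 1) n) G V E = true) : Win n i cp V := by
  classical
  intro L u hL h0 hS hD
  rw [nodeOk, strict_eq, bnd_eq, Nat.ble_eq, strict_eq, strict_eq] at h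
  obtain ⟨hk, h⟩ := h
  obtain ⟨l, nl, h, f1, -, -, f2⟩ := filt_spec _ _ _ h
  rw [bnd_eq, strict_eq] at h
  obtain ⟨t1, t2⟩ := tab_spec _ _ hT
  obtain ⟨S, s1, s2⟩ := opts_spec _ _ h.2
  have g1 : ∀ sh a w, l.mem sh a w → ∃ j < i, sh = 4 * j ∧ a = dg V sh ∧ a ≠ 0 ∧ w = km n i j := by
    intro sh a w hm
    rcases f1 sh a w hm with z | ⟨m, z1, z2, z6⟩
    · exact z.elim
    · obtain ⟨j, z3, z4, z5⟩ := t1 _ _ _ z1
      exact ⟨j, z3, z4, z2, z6, z5⟩
  have g2 : ∀ j < i, dg V (4 * j) ≠ 0 → ∃ w, l.mem (4 * j) (dg V (4 * j)) w :=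
    fun j hj z => ⟨_, ((f2 _ _ _ (t2 j hj)).1 z).1⟩
  have g3 : ∀ j < i, dg V (4 * j) = 0 → ∀ b, (15 <<< (4 * j)).testBit b = true → nl.testBit b = true :=
    fun j hj => (f2 _ _ _ (t2 j hj)).2
  have g4 : ∀ j < i, dg V (4 * j) ≠ 0 → dg V (4 * j) ≤ pt E 0 :=
    fun j hj z => ((f2 _ _ _ (t2 j hj)).1 z).2
  have key : ∃ c ∈ L i, ∃ x y, x ≠ 0 ∧ (∀ j < i, dg V (4 * j) ≠ 0 → (dg V (4 * j) = x ↔ u j = c)) ∧
      edge (Nat.lor (Nat.shiftRight V 128) cp) cp' nl (4 * i) l x (G y) = true := by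
    by_contra hc
    have k1 : ∀ c ∈ L i, ∃ j, j < i ∧ dg V (4 * j) ≠ 0 ∧ u j = c ∧ dg V (4 * j) ∈ S := by
      intro c hcL
      by_cases e : ∃ j, j < i ∧ dg V (4 * j) ≠ 0 ∧ u j = c
      · obtain ⟨j, z1, z2, z3⟩ := e
        refine ⟨j, z1, z2, z3, ?_⟩
        rcases s2 _ (Nat.one_le_iff_ne_zero.2 z2) (g4 j z1 z2) with z | z | ⟨y, z⟩
        · exfalso
          simp only [cnd_eq, Nat.beq_eq] at z
          split_ifs at z with z4
          · have z5 : u j = u 0 := (hS j z1 0 h1 z2 (by rw [Nat.mul_zero, ← z]; exact z2)).1 z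
            exact h0 (by rw [← z5, z3, show n - 1 = i by omega]; exact hcL)
          · exact z2 z
        · exact z
        · exact absurd ⟨c, hcL, _, y, z2, fun j' z4 z5 => by rw [hS j' z4 j z1 z5 z2, z3], z⟩ hc
      · refine absurd ⟨c, hcL, 15, _, by omega, fun j z1 z2 => ⟨fun z3 => ?_, fun z3 => ?_⟩, h.1⟩ hc
        · have := g4 j z1 z2; omega
        · exact absurd ⟨j, z1, z2, z3⟩ e
    choose! φ hφ using k1
    have k2 : (L i).card ≤ S.card := by
      refine Finset.card_le_card_of_injOn (fun c => dg V (4 * φ c)) (fun c hcL => (hφ c hcL).2.2.2) ?_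
      intro c hcL c' hcL' e
      obtain ⟨z1, z2, z3, -⟩ := hφ c hcL
      obtain ⟨z4, z5, z6, -⟩ := hφ c' hcL'
      rw [← z3, ← z6]
      exact (hS _ z1 _ z4 z2 z5).1 e
    have := hL i hi
    omega
  obtain ⟨c, hcL, x, y, hx, k1, k2⟩ := key
  obtain ⟨k3, k4⟩ := edge_spec hi hx hS hD g1 g2 g3 k1 k2
  obtain ⟨v, v1, v2, v3⟩ := hG y L _ hL (by rwa [Function.update_of_ne (by omega)]) k3 k4
  refine ⟨v, fun j hj => ?_, fun j z1 z2 => ?_, v3⟩
  · rw [v1 j (by omega), Function.update_of_ne (by omega)]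
  · by_cases e : j = i
    · rw [e, v1 i (by omega), Function.update_self]; exact hcL
    · exact v2 j (by omega) z2

theorem chk_spec {n i cp cp' : ℕ} {T : EL} {S : BT} (h1 : 1 ≤ i) (hi : i < n)
    (hT : tabOk n i T i = true) (hS : S.all (Win n (i + 1) cp')) (B : BT)
    (h : chk n i cp cp' T S B = true) : B.all (Win n i cp) := by
  induction B with
  | leaf v e => exact node_spec h1 hi hT (BT.all_get hS) h
  | node l r hl hr =>
    have h2 : bnd (chk n i cp cp' T S l) (chk n i cp cp' T S r) = true := h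
    rw [bnd_eq] at h2
    exact ⟨hl h2.1, hr h2.2⟩

theorem win_last (n : ℕ) : (BT.leaf 0 0).all (Win n n (2 ^ (n * (n / 2)) - 1)) :=
  fun _ u _ _ _ hD => ⟨u, fun _ _ => rfl, fun _ h1 h2 => by omega, by simpa using hD⟩

/-- Lists of three colours on a cycle of length `n`, with a colour `d` of the first list that is not in
the last list, admit a colouring without a square. -/
def Short (n : ℕ) : Prop :=
  ∀ (L : ℕ → Finset ℕ) (d : ℕ), (∀ j < n, 3 ≤ (L j).card) → d ∈ L 0 → d ∉ L (n - 1) →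
    ∃ v : ℕ → ℕ, (∀ j < n, v j ∈ L j) ∧
      ∀ p s, 1 ≤ p → 2 * p ≤ n → s < n → ∃ t < p, v ((s + t) % n) ≠ v ((s + t + p) % n)

theorem short_of {n e : ℕ} (h : (BT.leaf 1 e).all (Win n 1 0)) : Short n := by
  intro L d hL h1 h2
  obtain ⟨v, v1, v2, v3⟩ := h L (fun _ => d) hL h2
    (fun j hj j' hj' _ _ => by obtain rfl : j = 0 := by omega
                               obtain rfl : j' = 0 := by omega
                               simp)
    (fun b hb => by simp at hb)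
  refine ⟨v, fun j hj => ?_, fun p s hp hn hs => ?_⟩
  · by_cases e : j = 0
    · rw [e, v1 0 (by omega)]; exact h1
    · exact v2 j (by omega) hj
  · have h3 : n * (p - 1) + s < n * (n / 2) := by
      have : n * (p - 1 + 1) ≤ n * (n / 2) := Nat.mul_le_mul_left _ (by omega)
      rw [Nat.mul_add] at this
      omega
    obtain ⟨t, h4, -, -, h5⟩ := v3 _ (by simp [Nat.testBit_two_pow_sub_one, h3]) p s hp hs rfl
    exact ⟨t, h4, h5⟩

end Pool.Agent.Work.MP_7cb3ca_co.Sm
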