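/-!
Short cycles: the checker for strategies in the game where the lists are shown one after the other.
Written with recursors so that the kernel evaluates it fast. Nothing is imported.
-/

namespace Pool.Agent.Work.MP_7cb3ca_co.Sm

/-- Lists of entries: a shift, a number and a mask of windows. -/
inductive EL : Type
  | nil : EL
  | cons (sh a km : Nat) (t : EL) : EL

/-- Trees of states: the value `v` of a state and the packed list `e` of its successors. -/
inductive BT : Type
  | leaf (v e : Nat) : BT
  | node (l r : BT) : BT

noncomputable section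

/-- `f e`, with `e` evaluated first. -/
def strict {α : Type} (e : Nat) (f : Nat → α) : α :=
  Nat.rec (motive := fun _ => α) (f e) (fun m _ => f m) (Nat.add e 1)

/-- Case distinction on a boolean. -/
def cnd {α : Type} (b : Bool) (x y : α) : α := Bool.rec (motive := fun _ => α) y x b

/-- Conjunction. -/
def bnd (a b : Bool) : Bool := Bool.rec (motive := fun _ => Bool) false b a

/-- The four bits at position `sh`. -/
def dg (N sh : Nat) : Nat := Nat.land (Nat.shiftRight N sh) 15

/-- The twenty-four bits at position `24 * a`. -/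
def pt (E a : Nat) : Nat := Nat.land (Nat.shiftRight E (Nat.mul 24 a)) 16777215

/-- The value of a state of a tree. -/
def BT.get (T : BT) : Nat → Nat :=
  BT.rec (motive := fun _ => Nat → Nat) (fun v _ _ => v)
    (fun _ _ l r i => strict (Nat.shiftRight i 1) fun j => cnd (Nat.beq (Nat.land i 1) 0) (l j) (r j)) T

/-- The windows of period `p` that contain the pair with first place `a`. -/
def run (n a p q : Nat) : Nat :=
  Nat.rec (motive := fun _ => Nat) 0
    (fun t ih => Nat.lor ih (Nat.shiftLeft 1
      (Nat.add (Nat.mul n (Nat.sub p 1)) (Nat.mod (Nat.sub (Nat.add a n) t) n)))) q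

/-- The windows that contain the pair of places `j < i`. -/
def km (n i j : Nat) : Nat :=
  Nat.lor (cnd (Nat.ble (Nat.mul 2 (Nat.sub i j)) n) (run n j (Nat.sub i j) (Nat.sub i j)) 0)
    (cnd (Nat.ble (Nat.mul 2 (Nat.sub n (Nat.sub i j))) n)
      (run n i (Nat.sub n (Nat.sub i j)) (Nat.sub n (Nat.sub i j))) 0)

/-- The table lists the places below `q` with their masks. -/
def tabOk (n i : Nat) (T : EL) : Nat → Bool :=
  EL.rec (motive := fun _ => Nat → Bool) (fun q => Nat.beq q 0)
    (fun sh a k _ ih q => strict (Nat.sub q 1) fun j => bnd (Nat.ble 1 q) (bnd (Nat.beq sh (Nat.mul 4 j))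
      (bnd (Nat.beq a (Nat.shiftLeft 15 sh)) (bnd (Nat.beq k (km n i j)) (ih j))))) T

/-- The named places of a state, and the mask of the other places. -/
def filt (V k : Nat) (T : EL) : EL → Nat → (EL → Nat → Bool) → Bool :=
  EL.rec (motive := fun _ => EL → Nat → (EL → Nat → Bool) → Bool) (fun l nl f => f l nl)
    (fun sh m w _ ih l nl f => strict (dg V sh) fun a =>
      cnd (Nat.beq a 0) (strict (Nat.lor nl m) fun nl' => ih l nl' f)
        (bnd (Nat.ble a k) (ih (EL.cons sh a w l) nl f))) T

/-- A guess of the dictionary between the names of two states. -/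
def bld (V : Nat) (l : EL) : Nat → (Nat → Bool) → Bool :=
  EL.rec (motive := fun _ => Nat → (Nat → Bool) → Bool) (fun τ f => f τ)
    (fun sh a _ _ ih τ f => strict (dg V sh) fun b =>
      strict (Nat.lor τ (Nat.lor (Nat.shiftLeft a (Nat.mul 4 b))
        (Nat.shiftLeft b (Nat.add 64 (Nat.mul 4 a))))) fun τ' => ih τ' f) l

/-- The check of the dictionary, and the windows that die when the letter with name `x` is written. -/
def ver (V x τ : Nat) (l : EL) : Nat → (Nat → Bool) → Bool :=
  EL.rec (motive := fun _ => Nat → (Nat → Bool) → Bool) (fun K f => f K)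
    (fun sh a w _ ih K f => strict (dg V sh) fun b =>
      bnd (cnd (Nat.beq b 0) true (bnd (Nat.beq (dg τ (Nat.mul 4 b)) a)
          (Nat.beq (dg τ (Nat.add 64 (Nat.mul 4 a))) b)))
        (cnd (Nat.beq a x) (ih K f) (strict (Nat.lor K w) fun K' => ih K' f))) l

/-- The state `V` follows when the letter with name `x` is written. -/
def edge (D cp nl sh : Nat) (l : EL) (x V : Nat) : Bool :=
  bnd (Nat.beq (Nat.land V nl) 0)
    (bld V (EL.cons sh x 0 l) 0 fun τ => ver V x τ (EL.cons sh x 0 l) D fun K =>
      strict (Nat.lor (Nat.shiftRight V 128) cp) fun need => Nat.beq (Nat.land need K) need)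

/-- All names up to `k` but `ex` and `bud` others have a successor. -/
def opts (F : Nat → Nat → Bool) (G : Nat → Nat) (E ex k : Nat) : Nat → Bool :=
  Nat.rec (motive := fun _ => Nat → Bool) (fun _ => true)
    (fun a ih bud => strict (Nat.add a 1) fun x => strict (pt E (Nat.add x 1)) fun c =>
      cnd (Nat.beq c 0)
        (cnd (Nat.beq x ex) (ih bud) (bnd (Nat.ble 1 bud) (strict (Nat.sub bud 1) ih)))
        (bnd (strict (G (Nat.sub c 1)) (F x)) (ih bud))) k

/-- The check of a state. -/
def nodeOk (T : EL) (sh cp cp' : Nat) (last : Bool) (G : Nat → Nat) (V E : Nat) : Bool :=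
  strict (pt E 0) fun k => bnd (Nat.ble k 14)
    (strict (Nat.lor (Nat.shiftRight V 128) cp) fun D => strict (cnd last (dg V 0) 0) fun ex =>
      filt V k T EL.nil 0 fun l nl =>
        bnd (strict (G (pt E 1)) (edge D cp' nl sh l 15)) (opts (edge D cp' nl sh l) G E ex k 2))

/-- The check of a tree of states at level `i` against the tree `S` of the next level. -/
def chk (n i cp cp' : Nat) (T : EL) (S B : BT) : Bool :=
  strict (Nat.mul 4 i) fun sh =>
    (fun last : Bool => BT.rec (motive := fun _ => Bool)
      (fun v e => nodeOk T sh cp cp' last S.get v e) (fun _ _ l r => bnd l r) B)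
    (Nat.beq (Nat.add i 1) n)

end

end Pool.Agent.Work.MP_7cb3ca_co.Sm
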